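import Pool.Agent.Helper51.PP.Spec

/-!
# Swarm PC, part LIO: harmonic functions are constant
-/

set_option autoImplicit false

namespace Pool.Agent.Helper73.PC.LIO

open MeasureTheory ProbabilityTheory Filter Topology Pool.Agent.Helper51.PP

theorem main : S_LIO := by
  intro Ω E _ _ _ μ _ T rev hM ⟨e0, he0⟩ h hh hP
  have hT : ∀ e, MemLp (fun ω => h (T ω e)) 2 μ := fun e =>
    hh.comp_measurePreserving (hM.mp e)
  have hsq : ∀ e, ∫ ω, (h (T ω e)) ^ 2 ∂μ = ∫ ω, (h ω) ^ 2 ∂μ := by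
    intro e
    have h1 : AEStronglyMeasurable (fun ω => (h ω) ^ 2) (μ.map (fun ω => T ω e)) := by
      rw [(hM.mp e).map_eq]; exact (hh.1.pow 2)
    have h2 := integral_map (hM.mp e).measurable.aemeasurable h1
    rw [(hM.mp e).map_eq] at h2
    exact h2.symm
  have i1 : Integrable (fun ω => (h ω) ^ 2) μ := hh.integrable_sq
  have i2 : ∀ e, Integrable (fun ω => (h (T ω e)) ^ 2) μ := fun e => (hT e).integrable_sq
  have i3 : ∀ e, Integrable (fun ω => h (T ω e) * h ω) μ := fun e =>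
    MemLp.integrable_mul (p := 2) (q := 2) (hT e) hh
  have hE : (Fintype.card E : ℝ) ≠ 0 := Nat.cast_ne_zero.2 Fintype.card_ne_zero
  have hcross : ∑ e, ∫ ω, h (T ω e) * h ω ∂μ = (Fintype.card E : ℝ) * ∫ ω, (h ω) ^ 2 ∂μ := by
    have h1 : ∫ ω, (h ω) ^ 2 ∂μ = ∫ ω, (Fintype.card E : ℝ)⁻¹ * ∑ e, h (T ω e) * h ω ∂μ := by
      apply integral_congr_ae
      filter_upwards [hP] with ω hω
      have : h ω = (Fintype.card E : ℝ)⁻¹ * ∑ e, h (T ω e) := hω.symm
      rw [← Finset.sum_mul, ← mul_assoc, ← this, sq]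
    rw [h1, integral_const_mul, integral_finsetSum _ (fun e _ => i3 e), ← mul_assoc,
      mul_inv_cancel₀ hE, one_mul]
  have hexp : ∀ e, ∫ ω, (h (T ω e) - h ω) ^ 2 ∂μ =
      2 * ∫ ω, (h ω) ^ 2 ∂μ - 2 * ∫ ω, h (T ω e) * h ω ∂μ := by
    intro e
    have h1 : ∫ ω, (h (T ω e) - h ω) ^ 2 ∂μ =
        ∫ ω, ((h (T ω e)) ^ 2 + (h ω) ^ 2) - 2 * (h (T ω e) * h ω) ∂μ := by
      apply integral_congr_ae
      filter_upwards with ω
      ring
    have h2 : Integrable (fun ω => (h (T ω e)) ^ 2 + (h ω) ^ 2) μ := (i2 e).add i1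
    rw [h1, integral_sub h2 ((i3 e).const_mul 2), integral_add (i2 e) i1,
      integral_const_mul, hsq e]
    ring
  have hsum : ∑ e, ∫ ω, (h (T ω e) - h ω) ^ 2 ∂μ = 0 := by
    rw [Finset.sum_congr rfl (fun e _ => hexp e), Finset.sum_sub_distrib, ← Finset.mul_sum,
      ← Finset.mul_sum, hcross, Finset.sum_const, Finset.card_univ, nsmul_eq_mul]
    ring
  have h0 : ∫ ω, (h (T ω e0) - h ω) ^ 2 ∂μ = 0 :=
    (Finset.sum_eq_zero_iff_of_nonneg
      (fun e _ => integral_nonneg (fun ω => sq_nonneg _))).1 hsum e0 (Finset.mem_univ _)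
  have h1 : (fun ω => (h (T ω e0) - h ω) ^ 2) =ᵐ[μ] 0 := by
    refine (integral_eq_zero_iff_of_nonneg (fun ω => sq_nonneg _) ?_).1 h0
    exact ((hT e0).sub hh).integrable_sq
  have h2 : h ∘ (fun ω => T ω e0) =ᵐ[μ] h := by
    filter_upwards [h1] with ω hω
    have : (h (T ω e0) - h ω) ^ 2 = 0 := hω
    have := pow_eq_zero_iff (two_ne_zero) |>.1 this
    show h (T ω e0) = h ω
    linarith
  obtain ⟨c, hc⟩ := he0.ae_eq_const_of_ae_eq_comp_ae hh.1 h2
  exact ⟨c, hc⟩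

end Pool.Agent.Helper73.PC.LIO
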