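import Pool.Agent.Helper51.PP.Spec

/-!
# Swarm PC, part NL: Nash's argument for sequences
-/

set_option autoImplicit false

namespace Pool.Agent.Helper73.PC.NL

open MeasureTheory ProbabilityTheory Filter Topology Pool.Agent.Helper51.PP

theorem sq_facts (n : ℕ) : (√(n : ℝ)) ^ 2 = n ∧ (√((n : ℝ) + 1)) ^ 2 = (n : ℝ) + 1 ∧
    √(n : ℝ) ≤ √((n : ℝ) + 1) ∧ 0 ≤ √(n : ℝ) ∧ 0 < √((n : ℝ) + 1) := by
  have h : (0 : ℝ) ≤ n := Nat.cast_nonneg n
  exact ⟨Real.sq_sqrt h, Real.sq_sqrt (by linarith), Real.sqrt_le_sqrt (by linarith),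
    Real.sqrt_nonneg _, Real.sqrt_pos.2 (by linarith)⟩

/-- Abel summation -/
theorem absum (F : ℕ → ℝ) (K : ℝ) (hK : 0 ≤ K)
    (hFs : ∀ n : ℕ, ∑ k ∈ Finset.range n, F k ≤ K * n) :
    ∀ n : ℕ, 1 ≤ n → ∑ k ∈ Finset.range n, F k / √((k : ℝ) + 1) ≤
      K * √(n : ℝ) + (∑ k ∈ Finset.range n, F k) / √(n : ℝ) := by
  intro n hn
  induction n, hn using Nat.le_induction with
  | base => simp [hK]
  | succ n hn ih =>
    obtain ⟨h1, h2, h3, h4, h5⟩ := sq_facts n
    have hn0 : (0 : ℝ) < n := by exact_mod_cast hn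
    have h6 : 0 < √(n : ℝ) := Real.sqrt_pos.2 hn0
    rw [Finset.sum_range_succ, Finset.sum_range_succ]
    push_cast
    set S := ∑ k ∈ Finset.range n, F k
    set s := √(n : ℝ)
    set t := √((n : ℝ) + 1)
    have hS : S ≤ K * s ^ 2 := by rw [h1]; exact hFs n
    have key : S / s + K * s ≤ S / t + K * t := by
      have e1 : S / t + K * t - (S / s + K * s) = (t - s) * (K - S / (s * t)) := by
        field_simp
        ring
      have e2 : S / (s * t) ≤ K := by
        rw [div_le_iff₀ (by positivity)]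
        refine hS.trans ?_
        have : s ^ 2 ≤ s * t := by nlinarith
        nlinarith
      have : 0 ≤ (t - s) * (K - S / (s * t)) := mul_nonneg (by linarith) (by linarith)
      linarith
    have e3 : (S + F n) / t = S / t + F n / t := add_div _ _ _
    rw [e3]
    linarith

theorem absum2 (F : ℕ → ℝ) (K : ℝ) (hK : 0 ≤ K)
    (hFs : ∀ n : ℕ, ∑ k ∈ Finset.range n, F k ≤ K * n) (n : ℕ) (hn : 1 ≤ n) :
    ∑ k ∈ Finset.range n, F k / √((k : ℝ) + 1) ≤ 2 * K * √(n : ℝ) := by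
  refine (absum F K hK hFs n hn).trans ?_
  have hn0 : (0 : ℝ) < n := by exact_mod_cast hn
  have h6 : 0 < √(n : ℝ) := Real.sqrt_pos.2 hn0
  have : (∑ k ∈ Finset.range n, F k) / √(n : ℝ) ≤ K * √(n : ℝ) := by
    rw [div_le_iff₀ h6, mul_assoc, Real.mul_self_sqrt hn0.le]
    exact hFs n
  linarith

theorem sqrt_succ_le (n : ℕ) (hn : 1 ≤ n) : √((n : ℝ) + 1) ≤ 2 * √(n : ℝ) := by
  have hn0 : (1 : ℝ) ≤ n := by exact_mod_cast hn
  rw [show (2 : ℝ) * √(n : ℝ) = √(4 * n) by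
    rw [Real.sqrt_mul (by norm_num), show (4 : ℝ) = 2 ^ 2 by norm_num,
      Real.sqrt_sq (by norm_num)]]
  exact Real.sqrt_le_sqrt (by linarith)

theorem absum3 (F : ℕ → ℝ) (K : ℝ) (hK : 0 ≤ K) (hF : ∀ n, 0 ≤ F n)
    (hFs : ∀ n : ℕ, ∑ k ∈ Finset.range n, F k ≤ K * n) (n : ℕ) (hn : 1 ≤ n) :
    ∑ k ∈ Finset.range n, (F k + F (k + 1)) / √((k : ℝ) + 1) ≤ 10 * K * √(n : ℝ) := by
  have h1 := absum2 F K hK hFs n hn
  have h2 := absum2 F K hK hFs (n + 1) (by omega)
  have h3 : ∑ k ∈ Finset.range n, F (k + 1) / √((k : ℝ) + 1) ≤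
      2 * ∑ k ∈ Finset.range (n + 1), F k / √((k : ℝ) + 1) := by
    rw [Finset.sum_range_succ', mul_add, Finset.mul_sum]
    have h4 : 0 ≤ 2 * (F 0 / √(((0 : ℕ) : ℝ) + 1)) :=
      mul_nonneg zero_le_two (div_nonneg (hF 0) (Real.sqrt_nonneg _))
    refine le_trans ?_ (le_add_of_nonneg_right h4)
    refine Finset.sum_le_sum fun k _ => ?_
    have h5 : √((((k + 1 : ℕ) : ℝ)) + 1) ≤ 2 * √((k : ℝ) + 1) := by
      have := sqrt_succ_le (k + 1) (by omega)
      push_cast at this ⊢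
      exact this
    have h6 : 0 < √((k : ℝ) + 1) := Real.sqrt_pos.2 (by positivity)
    have h7 : 0 < √((((k + 1 : ℕ) : ℝ)) + 1) := Real.sqrt_pos.2 (by positivity)
    rw [mul_div_assoc', div_le_div_iff₀ h6 h7]
    nlinarith [hF (k + 1)]
  have h8 := sqrt_succ_le n hn
  push_cast at h2
  have h9 : 2 * K * √((n : ℝ) + 1) ≤ 4 * K * √(n : ℝ) := by nlinarith
  have h10 : ∑ k ∈ Finset.range n, (F k + F (k + 1)) / √((k : ℝ) + 1) =
      ∑ k ∈ Finset.range n, F k / √((k : ℝ) + 1) +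
        ∑ k ∈ Finset.range n, F (k + 1) / √((k : ℝ) + 1) := by
    rw [← Finset.sum_add_distrib]
    exact Finset.sum_congr rfl fun k _ => add_div _ _ _
  rw [h10]
  linarith

/-- the entropy sum -/
theorem dsum (H : ℕ → ℝ) (n : ℕ) :
    ∑ k ∈ Finset.range n, √((k : ℝ) + 1) * (H (k + 1) - H k) =
      √(n : ℝ) * H n - ∑ k ∈ Finset.range n, H k * (√((k : ℝ) + 1) - √(k : ℝ)) := by
  induction n with
  | zero => simp
  | succ n ih =>
    rw [Finset.sum_range_succ, Finset.sum_range_succ, ih]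
    push_cast
    ring

theorem hsum (d C1 : ℝ) (hd : 0 ≤ d) (hC1 : 0 ≤ C1) (H : ℕ → ℝ) (hH0 : 0 ≤ H 0)
    (hlow : ∀ n : ℕ, 1 ≤ n → d / 2 * Real.log n - C1 ≤ H n) :
    ∀ n : ℕ, 1 ≤ n → √(n : ℝ) * (d / 2 * Real.log n - (C1 + 2 * d)) ≤
      ∑ k ∈ Finset.range n, H k * (√((k : ℝ) + 1) - √(k : ℝ)) := by
  intro n hn
  induction n, hn using Nat.le_induction with
  | base =>
    simp
    linarith
  | succ n hn ih =>
    rw [Finset.sum_range_succ]
    obtain ⟨h1, h2, h3, h4, h5⟩ := sq_facts n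
    have hn1 : (1 : ℝ) ≤ n := by exact_mod_cast hn
    have hn0 : (0 : ℝ) < n := by linarith
    have h6 : 0 < √(n : ℝ) := Real.sqrt_pos.2 hn0
    have hl := hlow n hn
    push_cast
    set s := √(n : ℝ)
    set t := √((n : ℝ) + 1)
    have hlog : Real.log ((n : ℝ) + 1) ≤ Real.log n + 1 / n := by
      have e1 : Real.log ((n : ℝ) + 1) = Real.log n + Real.log (1 + 1 / n) := by
        rw [← Real.log_mul hn0.ne' (by positivity)]
        congr 1
        field_simp
      have e2 : Real.log (1 + 1 / (n : ℝ)) ≤ 1 / n := by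
        have := Real.log_le_sub_one_of_pos (x := 1 + 1 / (n : ℝ)) (by positivity)
        linarith
      linarith
    have hts : t * (1 / (n : ℝ)) ≤ 4 * (t - s) := by
      have e1 : (t - s) * (t + s) = 1 := by nlinarith
      have e2 : 1 ≤ (t - s) * (2 * t) := by nlinarith
      have e3 : t ^ 2 ≤ 2 * n := by linarith
      rw [mul_one_div, div_le_iff₀ hn0]
      -- t ≤ 4 (t - s) n
      have e4 : t * 1 ≤ t * ((t - s) * (2 * t)) := mul_le_mul_of_nonneg_left e2 h5.le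
      have e5 : 0 ≤ t - s := by linarith
      nlinarith [mul_le_mul_of_nonneg_left e3 e5]
    have hst : 0 ≤ t - s := by linarith
    have a1 : (d / 2 * Real.log n - C1) * (t - s) ≤ H n * (t - s) :=
      mul_le_mul_of_nonneg_right hl hst
    have a2 : t * (d / 2 * Real.log ((n : ℝ) + 1)) ≤ t * (d / 2 * (Real.log n + 1 / n)) :=
      mul_le_mul_of_nonneg_left (mul_le_mul_of_nonneg_left hlog (by linarith)) h5.le
    have a3 : d / 2 * (t * (1 / (n : ℝ))) ≤ d / 2 * (4 * (t - s)) :=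
      mul_le_mul_of_nonneg_left hts (by linarith)
    nlinarith

theorem ybound (d a y : ℝ) (ha : 0 ≤ a) (hy0 : 0 ≤ y) (h4 : 1 ≤ y)
    (hy : 1 + y + y ^ 2 / 2 ≤ a + d / 2 * y) (h3 : d + 2 * a + 1 < y) : False := by
  have h6 := mul_le_mul_of_nonneg_left h3.le hy0
  have h7 := mul_le_mul_of_nonneg_left h4 ha
  have h8 : y * (d + 2 * a + 1) = d * y + 2 * (a * y) + y := by ring
  have h9 : y * y = y ^ 2 := by ring
  rw [h8, h9] at h6
  linarith

theorem main : S_NL := by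
  intro d hd K C1 C2 C3 hK hC1 hC2 hC3
  have hd1 : (1 : ℝ) ≤ d := by exact_mod_cast hd
  have hd0 : (0 : ℝ) < d := by linarith
  obtain ⟨B, hB⟩ : ∃ B : ℝ, B = C1 + 2 * d := ⟨_, rfl⟩
  obtain ⟨A, hA⟩ : ∃ A : ℝ, A = 1 + C3 + 10 * K + B / 2 := ⟨_, rfl⟩
  obtain ⟨Y, hY⟩ : ∃ Y : ℝ, Y = d + 2 * (A + C2 / 2) + 1 := ⟨_, rfl⟩
  have hB0 : 0 ≤ B := by rw [hB]; positivity
  have hA0 : 0 ≤ A := by rw [hA]; positivity
  have hY0 : 0 ≤ Y := by rw [hY]; positivity
  refine ⟨A + d * Y + C2 + B, by positivity, ?_⟩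
  intro H M F hH hH0 hM hF hFs hrec hM0 hM1 hlow hup n hn
  have hn1 : (1 : ℝ) ≤ n := by exact_mod_cast hn
  have hn0 : (0 : ℝ) < n := by linarith
  have hs1 : 1 ≤ √(n : ℝ) := Real.one_le_sqrt.2 hn1
  have hs0 : 0 < √(n : ℝ) := by linarith
  -- the sum of the square roots
  have hM' : ∀ n : ℕ, M n ≤ C3 + ∑ k ∈ Finset.range n,
      √(2 * (F k + F (k + 1)) * (H (k + 1) - H k)) := by
    intro n
    induction n using Nat.twoStepInduction with
    | zero => simpa using hM0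
    | one =>
      rw [Finset.sum_range_one]
      have := Real.sqrt_nonneg (2 * (F 0 + F (0 + 1)) * (H (0 + 1) - H 0))
      linarith
    | more n h1 _ =>
      rw [Finset.sum_range_succ, Finset.sum_range_succ]
      have := hrec n
      have h3 := Real.sqrt_nonneg (2 * (F (n + 1) + F (n + 1 + 1)) * (H (n + 1 + 1) - H (n + 1)))
      linarith
  have hamgm : ∀ k : ℕ, √(2 * (F k + F (k + 1)) * (H (k + 1) - H k)) ≤
      (F k + F (k + 1)) / √((k : ℝ) + 1) + √((k : ℝ) + 1) * (H (k + 1) - H k) / 2 := by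
    intro k
    have h6 : 0 < √((k : ℝ) + 1) := Real.sqrt_pos.2 (by positivity)
    have hx : 0 ≤ F k + F (k + 1) := add_nonneg (hF _) (hF _)
    have hy : 0 ≤ H (k + 1) - H k := sub_nonneg.2 (hH (Nat.le_succ k))
    have hr : 0 ≤ (F k + F (k + 1)) / √((k : ℝ) + 1) + √((k : ℝ) + 1) * (H (k + 1) - H k) / 2 := by
      positivity
    rw [Real.sqrt_le_left hr]
    have e : 2 * (F k + F (k + 1)) * (H (k + 1) - H k) =
        4 * ((F k + F (k + 1)) / √((k : ℝ) + 1)) * (√((k : ℝ) + 1) * (H (k + 1) - H k) / 2) := by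
      field_simp
      ring
    rw [e]
    nlinarith [sq_nonneg ((F k + F (k + 1)) / √((k : ℝ) + 1) -
      √((k : ℝ) + 1) * (H (k + 1) - H k) / 2)]
  obtain ⟨D, hD⟩ : ∃ D : ℝ, D = ∑ k ∈ Finset.range n, √((k : ℝ) + 1) * (H (k + 1) - H k) :=
    ⟨_, rfl⟩
  have hMn : M n ≤ C3 + (10 * K * √(n : ℝ) + D / 2) := by
    refine (hM' n).trans ?_
    have h1 : ∑ k ∈ Finset.range n, √(2 * (F k + F (k + 1)) * (H (k + 1) - H k)) ≤
        ∑ k ∈ Finset.range n, ((F k + F (k + 1)) / √((k : ℝ) + 1) +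
          √((k : ℝ) + 1) * (H (k + 1) - H k) / 2) := Finset.sum_le_sum fun k _ => hamgm k
    rw [Finset.sum_add_distrib, ← Finset.sum_div, ← hD] at h1
    have h2 := absum3 F K hK hF hFs n hn
    linarith
  obtain ⟨R, hR⟩ : ∃ R : ℝ, R = H n / d - Real.log n / 2 := ⟨_, rfl⟩
  have hHR : H n - d / 2 * Real.log n = d * R := by
    rw [hR]
    field_simp
  have hDn : D ≤ √(n : ℝ) * (d * R + B) := by
    have h1 := hsum d C1 hd0.le hC1 H hH0 hlow n hn
    have h2 := dsum H n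
    rw [← hD] at h2
    rw [← hHR, hB]
    nlinarith
  have hMR : M n ≤ √(n : ℝ) * (C3 + 10 * K + B / 2 + d / 2 * R) := by
    have : C3 ≤ √(n : ℝ) * C3 := le_mul_of_one_le_left hC3 hs1
    nlinarith
  have hexp : √(n : ℝ) * Real.exp (R - C2 / d) ≤ 1 + M n := by
    have h1 := hup n
    have h2 : R - C2 / d + Real.log n / 2 ≤ Real.log (1 + M n) := by
      have h3 : H n / d ≤ Real.log (1 + M n) + C2 / d := by
        rw [div_le_iff₀ hd0]
        have : (Real.log (1 + M n) + C2 / d) * d = d * Real.log (1 + M n) + C2 := by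
          field_simp
        rw [this]
        exact h1
      rw [hR]
      linarith
    have h4 : 0 < 1 + M n := by linarith [hM n]
    have h5 := (Real.le_log_iff_exp_le h4).1 h2
    rw [Real.exp_add, mul_comm] at h5
    rwa [show Real.exp (Real.log n / 2) = √(n : ℝ) by
      rw [Real.sqrt_eq_rpow, Real.rpow_def_of_pos hn0]
      congr 1
      ring] at h5
  have hy : Real.exp (R - C2 / d) ≤ A + d / 2 * R := by
    have h1 : √(n : ℝ) * Real.exp (R - C2 / d) ≤ √(n : ℝ) * (A + d / 2 * R) := by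
      refine hexp.trans ?_
      rw [hA]
      nlinarith
    exact le_of_mul_le_mul_left h1 hs0
  have hRY : R - C2 / d ≤ Y := by
    by_contra hcon
    push Not at hcon
    obtain ⟨y, hyd⟩ : ∃ y : ℝ, y = R - C2 / d := ⟨_, rfl⟩
    rw [← hyd] at hy hcon
    have hy0 : 0 ≤ y := by linarith
    have h1 := Real.quadratic_le_exp_of_nonneg hy0
    have h2 : d / 2 * R = d / 2 * y + C2 / 2 := by
      rw [hyd]
      field_simp
      ring
    rw [h2] at hy
    have h3 : d + 2 * (A + C2 / 2) + 1 < y := by rw [← hY]; exact hcon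
    have h5 : 0 ≤ A + C2 / 2 := by positivity
    have h4 : 1 ≤ y := by linarith
    exact ybound d (A + C2 / 2) y h5 hy0 h4 (by linarith) h3
  have hdR : d * R ≤ d * Y + C2 := by
    have h1 : R ≤ Y + C2 / d := by linarith
    have h2 := mul_le_mul_of_nonneg_left h1 hd0.le
    have h3 : d * (Y + C2 / d) = d * Y + C2 := by field_simp
    linarith
  have hdY : 0 ≤ d * Y := by positivity
  refine ⟨?_, ?_⟩
  · refine hMR.trans ?_
    rw [mul_comm]
    refine mul_le_mul_of_nonneg_right ?_ hs0.le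
    rw [hA]
    nlinarith
  · rw [← hD]
    refine hDn.trans ?_
    rw [mul_comm]
    refine mul_le_mul_of_nonneg_right ?_ hs0.le
    linarith

end Pool.Agent.Helper73.PC.NL
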